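import Pool.Agent.Q161.ESV.Stm3

/-!
# ESV-FDV: the dimension (job 33639 for helper161)
-/

set_option autoImplicit false

namespace Pool.Agent.Q166.ESV

open NumberField IsDedekindDomain Finset
open Pool.Agent.Q161.ESV

theorem lat_smul {n : ℕ} {x : ℚ_[2]} (hx : ‖x‖ ≤ 1) {v : Fin n → ℚ_[2]} (hv : v ∈ lat n) : x • v ∈ lat n := by
  intro i
  rw [Pi.smul_apply, smul_eq_mul, norm_mul]
  exact mul_le_one₀ hx (norm_nonneg _) (hv i)

section

variable {F : Type} [Field F] {n : ℕ} (ρ : GF F →* GL (Fin n) ℤ_[2])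

theorem cobV_apply (D : F) (Q : Fin n → ℚ_[2]) (σ : GF F) : cobV ρ D Q σ = chi D σ • act ρ σ Q - Q := rfl

theorem cob_mk (D : F) (Q : Fin n → ℚ_[2]) (σ : GF F) : cob (WV ρ) D (mkW ρ Q) σ = mkW ρ (cobV ρ D Q σ) := by
  rw [cobV_apply, map_sub, map_zsmul]
  rfl

/-- reduction of cocycles -/
noncomputable def toSelZ (B : ℕ) (D : F) (h : ∀ c ∈ SelV ρ B D, (fun σ => mkW ρ (c σ)) ∈ SelZ (WV ρ) B D) :
    SelV ρ B D →+ SelZ (WV ρ) B D where
  toFun c := ⟨fun σ => mkW ρ (c.1 σ), h _ c.2⟩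
  map_zero' := by
    apply Subtype.ext
    funext σ
    exact map_zero (mkW ρ)
  map_add' a b := by
    apply Subtype.ext
    funext σ
    exact map_add (mkW ρ) _ _

/-- the map from the coefficients to the classes -/
noncomputable def Phi (B : ℕ) (D : F) (h : ∀ c ∈ SelV ρ B D, (fun σ => mkW ρ (c σ)) ∈ SelZ (WV ρ) B D)
    {m : ℕ} (c : Fin m → SelV ρ B D) : (Fin m → ℚ_[2]) →+ Sel (WV ρ) B D :=
  (QuotientAddGroup.mk' _).comp ((toSelZ ρ B D h).comp (Fintype.linearCombination ℚ_[2] c).toAddMonoidHom)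

theorem Phi_eq_zero (B : ℕ) (D : F) (h : ∀ c ∈ SelV ρ B D, (fun σ => mkW ρ (c σ)) ∈ SelZ (WV ρ) B D)
    {m : ℕ} (c : Fin m → SelV ρ B D) (a : Fin m → ℚ_[2]) :
    Phi ρ B D h c a = 0 ↔ ∃ Q, ∀ σ, (∑ i, a i • (c i).1 σ) - cobV ρ D Q σ ∈ lat n := by
  have h0 : ∀ σ, ((Fintype.linearCombination ℚ_[2] c a : SelV ρ B D) : GF F → (Fin n → ℚ_[2])) σ = ∑ i, a i • (c i).1 σ := by
    intro σ
    rw [Fintype.linearCombination_apply]
    rw [Submodule.coe_sum, Finset.sum_apply]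
    rfl
  have h1 : Phi ρ B D h c a = 0 ↔ toSelZ ρ B D h (Fintype.linearCombination ℚ_[2] c a) ∈ (cob (WV ρ) D).range.addSubgroupOf (SelZ (WV ρ) B D) := by
    unfold Phi
    exact QuotientAddGroup.eq_zero_iff _
  rw [h1, AddSubgroup.mem_addSubgroupOf]
  constructor
  · rintro ⟨P, hP⟩
    obtain ⟨Q, rfl⟩ := mkW_surj ρ P
    refine ⟨Q, fun σ => ?_⟩
    have h2 := congrFun hP σ
    rw [cob_mk] at h2
    have h3 : mkW ρ (cobV ρ D Q σ) = mkW ρ (∑ i, a i • (c i).1 σ) := by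
      rw [h2, ← h0]
      rfl
    rw [← mkW_eq_zero ρ, map_sub, h3, sub_self]
  · rintro ⟨Q, hQ⟩
    refine ⟨mkW ρ Q, ?_⟩
    funext σ
    rw [cob_mk]
    have h2 := (mkW_eq_zero ρ).2 (hQ σ)
    rw [map_sub, sub_eq_zero, ← h0] at h2
    exact h2.symm

end

section

variable {F : Type} [Field F] [NumberField F] {n : ℕ} (ρ : GF F →* GL (Fin n) ℤ_[2])

theorem bdd (f : GF F → (Fin n → ℚ_[2])) (hf : Continuous f) : ∃ N : ℕ, ∀ σ, (2 : ℚ_[2]) ^ N • f σ ∈ lat n := by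
  obtain ⟨M, hM⟩ := (isCompact_univ (X := GF F)).exists_bound_of_continuousOn hf.continuousOn
  obtain ⟨N, hN⟩ := pow_unbounded_of_one_lt M (one_lt_two)
  refine ⟨N, fun σ i => ?_⟩
  rw [Pi.smul_apply, smul_eq_mul, norm_mul, norm_pow]
  have h1 : ‖(2 : ℚ_[2])‖ = (2 : ℝ)⁻¹ := by
    have := Padic.norm_p (p := 2)
    exact_mod_cast this
  rw [h1]
  have h2 : ‖f σ i‖ ≤ M := (norm_le_pi_norm (f σ) i).trans (hM σ (Set.mem_univ _))
  calc (2 : ℝ)⁻¹ ^ N * ‖f σ i‖ ≤ (2 : ℝ)⁻¹ ^ N * 2 ^ N := by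
        gcongr
        linarith
    _ = 1 := by
        rw [← mul_pow]
        norm_num

theorem key (hLAT : S_LAT) (hNOL : S_NOL) (B : ℕ) (D : F)
    (h : ∀ c ∈ SelV ρ B D, (fun σ => mkW ρ (c σ)) ∈ SelZ (WV ρ) B D) (hfin : Finite (Sel2 (WV ρ) B D))
    (m : ℕ) (c : Fin m → SelV ρ B D)
    (hc : LinearIndependent ℚ_[2] (fun i => (Submodule.Quotient.mk (c i) : HV ρ B D))) :
    2 ^ m ≤ sel2 (WV ρ) B D := by
  have h1 := hLAT m (Phi ρ B D h c).ker ?_ ?_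
  · rw [← h1]
    unfold sel2
    let g : {x : (Fin m → ℚ_[2]) ⧸ (Phi ρ B D h c).ker // x + x = 0} → Sel2 (WV ρ) B D :=
      fun x => ⟨QuotientAddGroup.kerLift (Phi ρ B D h c) x.1, by
        rw [← map_add, x.2, map_zero]⟩
    apply Nat.card_le_card_of_injective g
    intro x y hxy
    apply Subtype.ext
    exact QuotientAddGroup.kerLift_injective (Phi ρ B D h c) (congrArg Subtype.val hxy)
  · choose N hN using fun i => bdd (c i).1 (c i).2.1.2
    refine ⟨∑ i, N i, fun a ha => ?_⟩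
    rw [AddMonoidHom.mem_ker, Phi_eq_zero]
    refine ⟨0, fun σ => ?_⟩
    rw [map_zero, Pi.zero_apply, sub_zero]
    apply AddSubgroup.sum_mem
    intro i _
    have h2 : ((2 : ℚ_[2]) ^ (∑ i, N i) • a) i • (c i).1 σ =
        (a i * (2 : ℚ_[2]) ^ (∑ j ∈ univ.erase i, N j)) • ((2 : ℚ_[2]) ^ (N i) • (c i).1 σ) := by
      rw [smul_smul, Pi.smul_apply, smul_eq_mul, mul_assoc, ← pow_add, Finset.sum_erase_add _ _ (Finset.mem_univ i), mul_comm]
    rw [h2]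
    refine lat_smul ?_ (hN i σ)
    rw [norm_mul]
    refine mul_le_one₀ (ha i) (norm_nonneg _) ?_
    rw [norm_pow]
    apply pow_le_one₀ (norm_nonneg _)
    have h3 : ‖(2 : ℚ_[2])‖ = (2 : ℝ)⁻¹ := by
      have := Padic.norm_p (p := 2)
      exact_mod_cast this
    rw [h3]
    norm_num
  · intro a ha
    have h2 : (∑ i, a i • (c i).1) ∈ LinearMap.range (cobV ρ D) := by
      apply hNOL F n ρ D
      intro j
      have h3 := ha j
      rw [AddMonoidHom.mem_ker, Phi_eq_zero] at h3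
      obtain ⟨Q, hQ⟩ := h3
      refine ⟨Q, fun σ => ?_⟩
      have h4 : ((2 : ℚ_[2]) ^ j)⁻¹ • (∑ i, a i • (c i).1) σ = ∑ i, ((((2 : ℚ_[2]) ^ j)⁻¹) • a) i • (c i).1 σ := by
        rw [Finset.sum_apply, Finset.smul_sum]
        apply Finset.sum_congr rfl
        intro i _
        rw [Pi.smul_apply, Pi.smul_apply, smul_smul, smul_eq_mul]
      rw [h4]
      exact hQ σ
    have h5 : ∑ i, a i • (Submodule.Quotient.mk (c i) : HV ρ B D) = 0 := by
      have h6 : ∑ i, a i • (Submodule.Quotient.mk (c i) : HV ρ B D) = Submodule.Quotient.mk (∑ i, a i • c i) := by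
        rw [← Submodule.mkQ_apply, map_sum]
        apply Finset.sum_congr rfl
        intro i _
        rw [map_smul]
        rfl
      rw [h6, Submodule.Quotient.mk_eq_zero, Submodule.mem_comap]
      have h7 : (SelV ρ B D).subtype (∑ i, a i • c i) = ∑ i, a i • (c i).1 := by
        rw [map_sum]
        rfl
      rw [h7]
      exact h2
    funext i
    exact Fintype.linearIndependent_iff.1 hc a h5 i

theorem key2 (hLAT : S_LAT) (hNOL : S_NOL) (B : ℕ) (D : F)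
    (h : ∀ c ∈ SelV ρ B D, (fun σ => mkW ρ (c σ)) ∈ SelZ (WV ρ) B D) (hfin : Finite (Sel2 (WV ρ) B D))
    (m : ℕ) (v : Fin m → HV ρ B D) (hv : LinearIndependent ℚ_[2] v) : 2 ^ m ≤ sel2 (WV ρ) B D := by
  choose c hc using fun i => Submodule.Quotient.mk_surjective _ (v i)
  apply key ρ hLAT hNOL B D h hfin m c
  have : (fun i => (Submodule.Quotient.mk (c i) : HV ρ B D)) = v := funext hc
  rw [this]
  exact hv

end

theorem fdv : S_LAT → S_NOL → S_SLV → S_FDV := by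
  intro hLAT hNOL hSLV F _ _ n ρ hρ
  obtain ⟨B1, hB1, h1⟩ := hSLV F n ρ hρ
  refine ⟨B1, hB1, fun B hB hB0 D hfin => ?_⟩
  have h := h1 B hB hB0 D
  have hfd : FiniteDimensional ℚ_[2] (HV ρ B D) := by
    rw [FiniteDimensional, ← Module.rank_lt_aleph0_iff]
    by_contra hc
    push Not at hc
    have h2 : ((sel2 (WV ρ) B D + 1 : ℕ) : Cardinal) ≤ Module.rank ℚ_[2] (HV ρ B D) :=
      (Cardinal.natCast_le_aleph0).trans hc
    obtain ⟨s, hs, hli⟩ := le_rank_iff_exists_linearIndependent_finset.1 h2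
    have h3 : LinearIndependent ℚ_[2] (fun i : Fin (sel2 (WV ρ) B D + 1) => ((s.equivFinOfCardEq hs).symm i : HV ρ B D)) :=
      hli.comp _ (s.equivFinOfCardEq hs).symm.injective
    have h4 := key2 ρ hLAT hNOL B D h hfin _ _ h3
    have h5 : sel2 (WV ρ) B D + 1 < 2 ^ (sel2 (WV ρ) B D + 1) := Nat.lt_two_pow_self
    omega
  refine ⟨hfd, ?_⟩
  exact key2 ρ hLAT hNOL B D h hfin _ _ (Module.finBasis ℚ_[2] (HV ρ B D)).linearIndependent

end Pool.Agent.Q166.ESV
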